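import Pool.Agent.L0h14.OE.Stm

/-!
# Project OE, part KS: Krull-Schmidt counting
-/

universe u v

open CategoryTheory

set_option autoImplicit false
set_option linter.unusedSectionVars false
set_option linter.style.haveILetI false

namespace Pool.Agent.L0h59.OE

open Pool.Agent.L0h14.OE Pool.Agent.L0h14.ORN

/-! ### Rings -/

theorem nil_comm {R : Type*} [Ring R] {a b : R} (h : IsNilpotent (a * b)) :
    IsNilpotent (b * a) := by
  obtain ⟨n, hn⟩ := h
  have key : ∀ n : ℕ, (b * a) ^ (n + 1) = b * (a * b) ^ n * a := by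
    intro n
    induction n with
    | zero => simp
    | succ n ih =>
      rw [pow_succ, ih, pow_succ (a * b) n]
      simp only [mul_assoc]
  exact ⟨n + 1, by rw [key, hn, mul_zero, zero_mul]⟩

theorem idem_comm {S : Type*} [CommRing S] [IsArtinianRing S] (c : S) (hc : ¬ IsNilpotent c) :
    ∃ t : S, (c * t) * (c * t) = c * t ∧ c * t ≠ 0 := by
  obtain ⟨n, y, hy⟩ := IsArtinian.exists_pow_succ_smul_dvd c (1 : S)
  have h1 : c ^ n = c ^ (n + 1) * y := by
    have := hy.symm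
    simpa [smul_eq_mul] using this
  have h2 : ∀ k : ℕ, c ^ n = c ^ (n + k) * y ^ k := by
    intro k
    induction k with
    | zero => simp
    | succ k ih =>
      calc c ^ n = c ^ n * c ^ k * y ^ k := by rw [← pow_add]; exact ih
        _ = (c ^ (n + 1) * y) * c ^ k * y ^ k := by rw [← h1]
        _ = c ^ (n + (k + 1)) * y ^ (k + 1) := by ring
  have h3 := h2 (n + 1)
  refine ⟨c ^ n * y ^ (n + 1), ?_, ?_⟩
  · calc (c * (c ^ n * y ^ (n + 1))) * (c * (c ^ n * y ^ (n + 1)))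
        = c * (c ^ (n + (n + 1)) * y ^ (n + 1)) * y ^ (n + 1) := by ring
      _ = c * (c ^ n * y ^ (n + 1)) := by rw [← h3]; ring
  · intro h0
    apply hc
    refine ⟨n, ?_⟩
    calc c ^ n = c ^ (n + (n + 1)) * y ^ (n + 1) := h3
      _ = (c * (c ^ n * y ^ (n + 1))) * c ^ n := by ring
      _ = 0 := by rw [h0, zero_mul]

theorem idem_ring {R : Type*} [Ring R] [Algebra ℚ R] [FiniteDimensional ℚ R] (c : R)
    (hc : ¬ IsNilpotent c) : ∃ t : R, c * t = t * c ∧ (c * t) * (c * t) = c * t ∧ c * t ≠ 0 := by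
  let S := Algebra.adjoin ℚ {c}
  letI : CommRing S := Algebra.adjoinCommRingOfComm ℚ (by
    intro a ha b hb
    rw [Set.mem_singleton_iff.1 ha, Set.mem_singleton_iff.1 hb])
  haveI : IsArtinianRing S := IsArtinianRing.of_finite ℚ S
  let c' : S := ⟨c, Algebra.subset_adjoin (Set.mem_singleton c)⟩
  have hc' : ¬ IsNilpotent c' := by
    rintro ⟨n, hn⟩
    exact hc ⟨n, by simpa [c'] using congrArg Subtype.val hn⟩
  obtain ⟨t, ht1, ht2⟩ := idem_comm c' hc'
  refine ⟨t.1, ?_, ?_, ?_⟩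
  · have := congrArg Subtype.val (mul_comm c' t)
    exact this
  · exact congrArg Subtype.val ht1
  · intro h
    exact ht2 (Subtype.ext h)

/-! ### Categories -/

section cat

variable {𝒞 : Type u} [Category.{v} 𝒞] [Preadditive 𝒞] [Linear ℚ 𝒞]

/-- nilpotent endomorphisms -/
def Nil {A : 𝒞} (a : A ⟶ A) : Prop := IsNilpotent (show End A from a)

theorem nil_sq {A : 𝒞} {a : A ⟶ A} (h : a ≫ a = 0) : Nil a := by
  refine ⟨2, ?_⟩
  rw [pow_two]
  exact h

theorem nil_comm_end {A : 𝒞} {a b : A ⟶ A} (h : Nil (a ≫ b)) : Nil (b ≫ a) := by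
  have h' : IsNilpotent ((show End A from b) * (show End A from a)) := h
  exact nil_comm h'

theorem idemC (fd : ∀ A B : 𝒞, FiniteDimensional ℚ (A ⟶ B)) {U : 𝒞} (c : U ⟶ U) (hc : ¬ Nil c) :
    ∃ t : U ⟶ U, c ≫ t = t ≫ c ∧ (c ≫ t) ≫ (c ≫ t) = c ≫ t ∧ c ≫ t ≠ 0 := by
  have hfd : FiniteDimensional ℚ (End U) := fd U U
  obtain ⟨t, h1, h2, h3⟩ := idem_ring (show End U from c) hc
  have h1' : t ≫ c = c ≫ t := h1
  have h2' : (t ≫ c) ≫ (t ≫ c) = t ≫ c := h2
  have h3' : t ≫ c ≠ 0 := h3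
  rw [h1'] at h2' h3'
  exact ⟨t, h1'.symm, h2', h3'⟩

/-- the maps `h` with `p ≫ h = h` and `h ≫ e = h` -/
def HH {U X : 𝒞} (p : U ⟶ U) (e : X ⟶ X) : Submodule ℚ (U ⟶ X) where
  carrier := {h | p ≫ h = h ∧ h ≫ e = h}
  zero_mem' := ⟨Limits.comp_zero, Limits.zero_comp⟩
  add_mem' := by
    intro a b ha hb
    refine ⟨?_, ?_⟩
    · rw [Preadditive.comp_add, ha.1, hb.1]
    · rw [Preadditive.add_comp, ha.2, hb.2]
  smul_mem' := by
    intro c a ha
    refine ⟨?_, ?_⟩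
    · rw [Linear.comp_smul, ha.1]
    · rw [Linear.smul_comp, ha.2]

theorem mem_HH {U X : 𝒞} {p : U ⟶ U} {e : X ⟶ X} {h : U ⟶ X} :
    h ∈ HH p e ↔ p ≫ h = h ∧ h ≫ e = h := Iff.rfl

theorem mem_FixC {U X : 𝒞} {p : U ⟶ U} {h : U ⟶ X} : h ∈ FixC p X ↔ p ≫ h = h := Iff.rfl

/-- a minimal idempotent below `q` -/
theorem minimal (fd : ∀ A B : 𝒞, FiniteDimensional ℚ (A ⟶ B))
    (nd : ∀ {A B : 𝒞} (a : A ⟶ B), a ≠ 0 → ∃ b : B ⟶ A, ¬ Nil (a ≫ b))
    {U : 𝒞} (q : U ⟶ U) (hq : q ≫ q = q) (hq0 : q ≠ 0) :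
    ∃ p : U ⟶ U, DivC p ∧ p ≫ q = p ∧ q ≫ p = p := by
  -- choose `p` with minimal rank
  have hex : ∃ n : ℕ, ∃ p : U ⟶ U, p ≫ p = p ∧ p ≠ 0 ∧ p ≫ q = p ∧ q ≫ p = p ∧
      Module.finrank ℚ (FixC p U) = n := ⟨_, q, hq, hq0, hq, hq, rfl⟩
  classical
  obtain ⟨p, hp, hp0, hpq, hqp, hn⟩ := Nat.find_spec hex
  have hmin : ∀ r : U ⟶ U, r ≫ r = r → r ≠ 0 → p ≫ r = r → r ≫ p = r → r = p := by
    intro r hr hr0 hpr hrp
    have hle : FixC r U ≤ FixC p U := by
      intro x hx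
      rw [mem_FixC] at hx ⊢
      rw [← hx, ← Category.assoc, hpr]
    have hge : Module.finrank ℚ (FixC p U) ≤ Module.finrank ℚ (FixC r U) := by
      rw [hn]
      apply Nat.find_min' hex
      refine ⟨r, hr, hr0, ?_, ?_, rfl⟩
      · rw [← hrp, Category.assoc, hpq]
      · rw [← hpr, ← Category.assoc, hqp]
    haveI := fd U U
    have heq : FixC r U = FixC p U := Submodule.eq_of_le_of_finrank_le hle hge
    have hpm : p ∈ FixC r U := by
      rw [heq]
      exact hp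
    rw [mem_FixC, hrp] at hpm
    exact hpm
  -- right inverses
  have hright : ∀ x : U ⟶ U, p ≫ x = x → x ≫ p = x → x ≠ 0 →
      ∃ y : U ⟶ U, p ≫ y = y ∧ y ≫ p = y ∧ x ≫ y = p := by
    intro x hpx hxp hx0
    obtain ⟨y, hy⟩ := nd x hx0
    set z := x ≫ (p ≫ y ≫ p) with hz
    have hz' : z = (x ≫ y) ≫ p := by
      rw [hz, ← Category.assoc x p, hxp]
      simp only [Category.assoc]
    have hznil : ¬ Nil z := by
      intro h
      apply hy
      rw [hz'] at h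
      have h2 := nil_comm_end h
      rw [← Category.assoc, hpx] at h2
      exact h2
    obtain ⟨t, ht1, ht2, ht3⟩ := idemC fd z hznil
    have hpz : p ≫ z = z := by rw [hz, ← Category.assoc, hpx]
    have hzp : z ≫ p = z := by
      rw [hz']
      rw [Category.assoc, hp]
    have hr : z ≫ t = p := by
      apply hmin _ ht2 ht3
      · rw [← Category.assoc, hpz]
      · rw [ht1, Category.assoc, hzp]
    refine ⟨p ≫ y ≫ p ≫ t ≫ p, ?_, ?_, ?_⟩
    · rw [← Category.assoc, hp]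
    · simp only [Category.assoc, hp]
    · have h3 : x ≫ p ≫ y ≫ p ≫ t ≫ p = (z ≫ t) ≫ p := by
        rw [hz]
        simp only [Category.assoc]
      rw [h3, hr, hp]
  refine ⟨p, ⟨hp, hp0, ?_⟩, hpq, hqp⟩
  intro x hpx hxp hx0
  obtain ⟨y, hpy, hyp, hxy⟩ := hright x hpx hxp hx0
  have hy0 : y ≠ 0 := by
    rintro rfl
    apply hp0
    rw [← hxy, Limits.comp_zero]
  obtain ⟨w, hpw, hwp, hyw⟩ := hright y hpy hyp hy0
  have hxw : x = w := by
    calc x = x ≫ p := hxp.symm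
      _ = x ≫ (y ≫ w) := by rw [hyw]
      _ = (x ≫ y) ≫ w := by rw [Category.assoc]
      _ = w := by rw [hxy, hpw]
  refine ⟨y, hpy, hyp, hxy, ?_⟩
  rw [hxw]
  exact hyw

/-- Lemma L -/
theorem lemL (fd : ∀ A B : 𝒞, FiniteDimensional ℚ (A ⟶ B))
    (nd : ∀ {A B : 𝒞} (a : A ⟶ B), a ≠ 0 → ∃ b : B ⟶ A, ¬ Nil (a ≫ b))
    {U X : 𝒞} (e : X ⟶ X) (h : U ⟶ X) (he : e ≫ e = e) (hh : h ≫ e = h) (h0 : h ≠ 0) :
    ∃ (p : U ⟶ U) (l : U ⟶ X) (l' : X ⟶ U), DivC p ∧ l ≫ l' = p ∧ p ≫ l = l ∧ l ≫ e = l ∧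
      l' ≫ p = l' ∧ e ≫ l' = l' := by
  obtain ⟨k, hk⟩ := nd h h0
  obtain ⟨t, ht1, ht2, ht3⟩ := idemC fd (h ≫ k) hk
  obtain ⟨p, hp, hpq, hqp⟩ := minimal fd nd ((h ≫ k) ≫ t) ht2 ht3
  refine ⟨p, p ≫ h, e ≫ k ≫ t ≫ p, hp, ?_, ?_, ?_, ?_, ?_⟩
  · have h1 : (p ≫ h) ≫ e ≫ k ≫ t ≫ p = p ≫ (h ≫ e) ≫ k ≫ t ≫ p := by
      simp only [Category.assoc]
    have h2 : p ≫ h ≫ k ≫ t ≫ p = (p ≫ ((h ≫ k) ≫ t)) ≫ p := by
      simp only [Category.assoc]
    rw [h1, hh, h2, hpq, hp.1]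
  · rw [← Category.assoc, hp.1]
  · rw [Category.assoc, hh]
  · simp only [Category.assoc, hp.1]
  · rw [← Category.assoc, he]

/-- splitting off a summand -/
theorem split_off {U X : 𝒞} {p : U ⟶ U} {e : X ⟶ X} {l : U ⟶ X} {l' : X ⟶ U}
    (he : e ≫ e = e) (hll : l ≫ l' = p) (hpl : p ≫ l = l) (hle : l ≫ e = l) (hlp : l' ≫ p = l')
    (hel : e ≫ l' = l') :
    (e - l' ≫ l) ≫ (e - l' ≫ l) = e - l' ≫ l ∧ e ≫ (e - l' ≫ l) = e - l' ≫ l ∧
      (e - l' ≫ l) ≫ e = e - l' ≫ l ∧ l ≫ (e - l' ≫ l) = 0 ∧ (e - l' ≫ l) ≫ l' = 0 := by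
  have a1 : e ≫ (e - l' ≫ l) = e - l' ≫ l := by
    rw [Preadditive.comp_sub, he, ← Category.assoc, hel]
  have a2 : (e - l' ≫ l) ≫ e = e - l' ≫ l := by
    rw [Preadditive.sub_comp, he, Category.assoc, hle]
  have a3 : l ≫ (e - l' ≫ l) = 0 := by
    rw [Preadditive.comp_sub, hle, ← Category.assoc, hll, hpl, sub_self]
  have a4 : (e - l' ≫ l) ≫ l' = 0 := by
    rw [Preadditive.sub_comp, hel, Category.assoc, hll, hlp, sub_self]
  refine ⟨?_, a1, a2, a3, a4⟩
  have : (e - l' ≫ l) ≫ (e - l' ≫ l) = e ≫ (e - l' ≫ l) - (l' ≫ l) ≫ (e - l' ≫ l) := by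
    rw [Preadditive.sub_comp]
  rw [this, a1, Category.assoc, a3, Limits.comp_zero, sub_zero]

/-- the dimension count -/
theorem rank_split (fd : ∀ A B : 𝒞, FiniteDimensional ℚ (A ⟶ B)) {V U X : 𝒞} {p : U ⟶ U}
    {e : X ⟶ X} {l : U ⟶ X} {l' : X ⟶ U}
    (he : e ≫ e = e) (hll : l ≫ l' = p) (hpl : p ≫ l = l) (hle : l ≫ e = l) (hlp : l' ≫ p = l')
    (hel : e ≫ l' = l') (p2 : V ⟶ V) :
    Module.finrank ℚ (HH p2 e) = Module.finrank ℚ (HH p2 p) +
      Module.finrank ℚ (HH p2 (e - l' ≫ l)) := by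
  obtain ⟨b1, b2, b3, b4, b5⟩ := split_off he hll hpl hle hlp hel
  haveI := fd V U
  haveI := fd V X
  let φ : HH p2 e →ₗ[ℚ] HH p2 p :=
    { toFun := fun h => ⟨h.1 ≫ l', by
        refine ⟨?_, ?_⟩
        · rw [← Category.assoc, h.2.1]
        · rw [Category.assoc, hlp]⟩
      map_add' := by
        intro a b
        apply Subtype.ext
        exact Preadditive.add_comp _ _ _ _ _ _
      map_smul' := by
        intro c a
        apply Subtype.ext
        exact Linear.smul_comp _ _ _ _ _ _ }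
  have hsurj : Function.Surjective φ := by
    intro t
    refine ⟨⟨t.1 ≫ l, ?_, ?_⟩, ?_⟩
    · rw [← Category.assoc, t.2.1]
    · rw [Category.assoc, hle]
    · apply Subtype.ext
      show (t.1 ≫ l) ≫ l' = t.1
      rw [Category.assoc, hll, t.2.2]
  have hrk := LinearMap.finrank_range_add_finrank_ker φ
  rw [LinearMap.range_eq_top.2 hsurj, finrank_top] at hrk
  rw [← hrk]
  congr 1
  have hker : ∀ h : HH p2 e, h ∈ LinearMap.ker φ ↔ h.1 ≫ (e - l' ≫ l) = h.1 := by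
    intro h
    rw [LinearMap.mem_ker]
    constructor
    · intro h0
      have h1 : h.1 ≫ l' = 0 := congrArg Subtype.val h0
      rw [Preadditive.comp_sub, h.2.2, ← Category.assoc, h1, Limits.zero_comp, sub_zero]
    · intro h0
      apply Subtype.ext
      show h.1 ≫ l' = 0
      rw [← h0, Category.assoc, b5, Limits.comp_zero]
  let ψ : LinearMap.ker φ ≃ₗ[ℚ] HH p2 (e - l' ≫ l) :=
    { toFun := fun h => ⟨h.1.1, h.1.2.1, (hker h.1).1 h.2⟩
      map_add' := fun a b => rfl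
      map_smul' := fun c a => rfl
      invFun := fun h => ⟨⟨h.1, h.2.1, by
        have h2 := h.2.2
        rw [← h2, Category.assoc, b3]⟩, (hker _).2 h.2.2⟩
      left_inv := fun a => rfl
      right_inv := fun a => rfl }
  exact ψ.finrank_eq

theorem via_comp {S : 𝒞 → Prop} {X Y Z : 𝒞} {f : X ⟶ Y} (hf : f ∈ Via S X Y) (g : Y ⟶ Z) :
    f ≫ g ∈ Via S X Z := by
  induction hf using Submodule.span_induction with
  | mem f hf =>
    obtain ⟨W, a, b, hW, rfl⟩ := hf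
    exact Submodule.subset_span ⟨W, a, b ≫ g, hW, Category.assoc _ _ _⟩
  | zero => rw [Limits.zero_comp]; exact Submodule.zero_mem _
  | add a b _ _ ha hb => rw [Preadditive.add_comp]; exact Submodule.add_mem _ ha hb
  | smul c a _ ha => rw [Linear.smul_comp]; exact Submodule.smul_mem _ _ ha

theorem comp_via {S : 𝒞 → Prop} {X Y Z : 𝒞} {f : Y ⟶ Z} (g : X ⟶ Y) (hf : f ∈ Via S Y Z) :
    g ≫ f ∈ Via S X Z := by
  induction hf using Submodule.span_induction with
  | mem f hf =>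
    obtain ⟨W, a, b, hW, rfl⟩ := hf
    exact Submodule.subset_span ⟨W, g ≫ a, b, hW, (Category.assoc _ _ _).symm⟩
  | zero => rw [Limits.comp_zero]; exact Submodule.zero_mem _
  | add a b _ _ ha hb => rw [Preadditive.comp_add]; exact Submodule.add_mem _ ha hb
  | smul c a _ ha => rw [Linear.comp_smul]; exact Submodule.smul_mem _ _ ha

/-- if there are no maps from the objects of `S` to `(X, e)` then the maps via `S` to `(X, e)`
vanish -/
theorem via_zero {S : 𝒞 → Prop} {W X : 𝒞} {e : X ⟶ X}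
    (h0 : ∀ U, S U → ∀ h : U ⟶ X, h ≫ e = h → h = 0) (he : e ≫ e = e) {f : W ⟶ X}
    (hf : f ∈ Via S W X) : f ≫ e = 0 := by
  induction hf using Submodule.span_induction with
  | mem f hf =>
    obtain ⟨U, a, b, hU, rfl⟩ := hf
    have := h0 U hU (b ≫ e) (by rw [Category.assoc, he])
    rw [Category.assoc, this, Limits.comp_zero]
  | zero => rw [Limits.zero_comp]
  | add a b _ _ ha hb => rw [Preadditive.add_comp, ha, hb, add_zero]
  | smul c a _ ha => rw [Linear.smul_comp, ha, smul_zero]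

theorem general (fd : ∀ A B : 𝒞, FiniteDimensional ℚ (A ⟶ B))
    (nd : ∀ {A B : 𝒞} (a : A ⟶ B), a ≠ 0 → ∃ b : B ⟶ A, ¬ Nil (a ≫ b))
    (S : 𝒞 → Prop) (X Y : 𝒞) : ∀ (N : ℕ) (e : X ⟶ X) (e' : Y ⟶ Y) (f : X ⟶ Y) (g : Y ⟶ X),
    Module.finrank ℚ (FixC e X) = N → e ≫ e = e → e' ≫ e' = e' → e ≫ f = f → f ≫ e' = f →
    e' ≫ g = g → g ≫ e = g → f ≫ g - e ∈ Via S X X → g ≫ f - e' ∈ Via S Y Y →
    (∀ U, S U → ∀ p : U ⟶ U, DivC p →
      Module.finrank ℚ (HH p e) = Module.finrank ℚ (HH p e')) →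
    ∃ (u : X ⟶ Y) (u' : Y ⟶ X), u ≫ u' = e ∧ u' ≫ u = e' ∧ e ≫ u = u ∧ u ≫ e' = u ∧
      e' ≫ u' = u' ∧ u' ≫ e = u' := by
  intro N
  induction N using Nat.strong_induction_on with
  | _ N ih =>
  intro e e' f g hN he he' hef hfe' he'g hge hfg hgf hrk
  by_cases h0 : ∀ U, S U → ∀ h : U ⟶ X, h ≫ e = h → h = 0
  · have h0' : ∀ U, S U → ∀ h : U ⟶ Y, h ≫ e' = h → h = 0 := by
      intro U hU h hh
      by_contra hne
      obtain ⟨p, l, l', hp, hll, hpl, hle, -, -⟩ := lemL fd nd e' h he' hh hne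
      haveI := fd U Y
      haveI := fd U X
      have hl0 : l ≠ 0 := by
        rintro rfl
        apply hp.2.1
        rw [← hll, Limits.zero_comp]
      have h1 : 0 < Module.finrank ℚ (HH p e') := by
        rw [Module.finrank_pos_iff_exists_ne_zero]
        exact ⟨⟨l, hpl, hle⟩, fun h => hl0 (congrArg Subtype.val h)⟩
      rw [← hrk U hU p hp, Module.finrank_pos_iff_exists_ne_zero] at h1
      obtain ⟨x, hx⟩ := h1
      apply hx
      apply Subtype.ext
      exact h0 U hU x.1 x.2.2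
    have h1 : f ≫ g = e := by
      have := via_zero h0 he hfg
      rw [Preadditive.sub_comp, Category.assoc, hge, he] at this
      exact sub_eq_zero.1 this
    have h2 : g ≫ f = e' := by
      have := via_zero h0' he' hgf
      rw [Preadditive.sub_comp, Category.assoc, hfe', he'] at this
      exact sub_eq_zero.1 this
    exact ⟨f, g, h1, h2, hef, hfe', he'g, hge⟩
  · push Not at h0
    obtain ⟨U, hU, h, hh, hne⟩ := h0
    obtain ⟨p, l, l', hp, hll, hpl, hle, hlp, hel⟩ := lemL fd nd e h he hh hne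
    haveI := fd U Y
    haveI := fd U X
    have hl0 : l ≠ 0 := by
      rintro rfl
      apply hp.2.1
      rw [← hll, Limits.zero_comp]
    obtain ⟨k, hpk, hke, hk0⟩ : ∃ k : U ⟶ Y, p ≫ k = k ∧ k ≫ e' = k ∧ k ≠ 0 := by
      have h1 : 0 < Module.finrank ℚ (HH p e) := by
        rw [Module.finrank_pos_iff_exists_ne_zero]
        exact ⟨⟨l, hpl, hle⟩, fun h => hl0 (congrArg Subtype.val h)⟩
      rw [hrk U hU p hp, Module.finrank_pos_iff_exists_ne_zero] at h1
      obtain ⟨x, hx⟩ := h1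
      exact ⟨x.1, x.2.1, x.2.2, fun h => hx (Subtype.ext h)⟩
    obtain ⟨k', hkk, hkp, hek⟩ : ∃ k' : Y ⟶ U, k ≫ k' = p ∧ k' ≫ p = k' ∧ e' ≫ k' = k' := by
      obtain ⟨k2, hk2⟩ := nd k hk0
      have hx0 : (k ≫ k2) ≫ p ≠ 0 := by
        intro h
        apply hk2
        apply nil_sq
        have : (k ≫ k2) ≫ (k ≫ k2) = ((k ≫ k2) ≫ p) ≫ (k ≫ k2) := by
          rw [Category.assoc (k ≫ k2) p, ← Category.assoc p k, hpk]
        rw [this, h, Limits.zero_comp]
      obtain ⟨y, hpy, hyp, hxy, -⟩ := hp.2.2 ((k ≫ k2) ≫ p)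
        (by rw [← Category.assoc, ← Category.assoc, hpk])
        (by rw [Category.assoc, hp.1]) hx0
      refine ⟨e' ≫ k2 ≫ p ≫ y, ?_, ?_, ?_⟩
      · have : k ≫ e' ≫ k2 ≫ p ≫ y = (k ≫ e') ≫ k2 ≫ p ≫ y := by simp only [Category.assoc]
        rw [this, hke]
        have hxy' := hxy
        simp only [Category.assoc] at hxy'
        exact hxy'
      · simp only [Category.assoc, hyp]
      · rw [← Category.assoc, he']
    obtain ⟨b1, b2, b3, b4, b5⟩ := split_off he hll hpl hle hlp hel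
    obtain ⟨c1, c2, c3, c4, c5⟩ := split_off he' hkk hpk hke hkp hek
    set e1 := e - l' ≫ l with he1
    set e1' := e' - k' ≫ k with he1'
    -- the dimension drops
    have hlt : Module.finrank ℚ (FixC e1 X) < N := by
      rw [← hN]
      haveI := fd X X
      apply Submodule.finrank_lt_finrank_of_lt
      rw [SetLike.lt_iff_le_and_exists]
      refine ⟨?_, l' ≫ l, ?_, ?_⟩
      · intro x hx
        rw [mem_FixC] at hx ⊢
        rw [← hx, ← Category.assoc, b2]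
      · rw [mem_FixC, ← Category.assoc, hel]
      · rw [mem_FixC, ← Category.assoc, b5, Limits.zero_comp]
        intro h
        apply hl0
        have : l = l ≫ (l' ≫ l) := by
          rw [← Category.assoc, hll, hpl]
        rw [this, ← h, Limits.comp_zero]
    have hrk1 : ∀ V, S V → ∀ p2 : V ⟶ V, DivC p2 →
        Module.finrank ℚ (HH p2 e1) = Module.finrank ℚ (HH p2 e1') := by
      intro V hV p2 hp2
      have r1 := rank_split fd he hll hpl hle hlp hel p2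
      have r2 := rank_split fd he' hkk hpk hke hkp hek p2
      have r3 := hrk V hV p2 hp2
      rw [← he1] at r1
      rw [← he1'] at r2
      omega
    have hv1 : (e1 ≫ f ≫ e1') ≫ (e1' ≫ g ≫ e1) - e1 ∈ Via S X X := by
      have hmem : k' ≫ k ∈ Via S Y Y := Submodule.subset_span ⟨U, k', k, hU, rfl⟩
      have e2 : (e1 ≫ f ≫ e1') ≫ (e1' ≫ g ≫ e1) - e1 =
          e1 ≫ ((f ≫ g - e) ≫ e1) - e1 ≫ (f ≫ ((k' ≫ k) ≫ (g ≫ e1))) := by
        have s1 : (e1 ≫ f ≫ e1') ≫ (e1' ≫ g ≫ e1) = e1 ≫ f ≫ (e1' ≫ e1') ≫ g ≫ e1 := by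
          simp only [Category.assoc]
        have s2 : e1' ≫ g ≫ e1 = g ≫ e1 - (k' ≫ k) ≫ (g ≫ e1) := by
          rw [he1', Preadditive.sub_comp, ← Category.assoc e' g, he'g]
        have s3 : (f ≫ g - e) ≫ e1 = f ≫ g ≫ e1 - e1 := by
          rw [Preadditive.sub_comp, Category.assoc, b2]
        rw [s1, c1, s2, s3, Preadditive.comp_sub f, Preadditive.comp_sub e1,
          Preadditive.comp_sub e1, b1]
        abel
      rw [e2]
      exact Submodule.sub_mem _ (comp_via _ (via_comp hfg _))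
        (comp_via _ (comp_via _ (via_comp hmem _)))
    have hv2 : (e1' ≫ g ≫ e1) ≫ (e1 ≫ f ≫ e1') - e1' ∈ Via S Y Y := by
      have hmem : l' ≫ l ∈ Via S X X := Submodule.subset_span ⟨U, l', l, hU, rfl⟩
      have e2 : (e1' ≫ g ≫ e1) ≫ (e1 ≫ f ≫ e1') - e1' =
          e1' ≫ ((g ≫ f - e') ≫ e1') - e1' ≫ (g ≫ ((l' ≫ l) ≫ (f ≫ e1'))) := by
        have s1 : (e1' ≫ g ≫ e1) ≫ (e1 ≫ f ≫ e1') = e1' ≫ g ≫ (e1 ≫ e1) ≫ f ≫ e1' := by
          simp only [Category.assoc]
        have s2 : e1 ≫ f ≫ e1' = f ≫ e1' - (l' ≫ l) ≫ (f ≫ e1') := by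
          rw [he1, Preadditive.sub_comp, ← Category.assoc e f, hef]
        have s3 : (g ≫ f - e') ≫ e1' = g ≫ f ≫ e1' - e1' := by
          rw [Preadditive.sub_comp, Category.assoc, c2]
        rw [s1, b1, s2, s3, Preadditive.comp_sub g, Preadditive.comp_sub e1',
          Preadditive.comp_sub e1', c1]
        abel
      rw [e2]
      exact Submodule.sub_mem _ (comp_via _ (via_comp hgf _))
        (comp_via _ (comp_via _ (via_comp hmem _)))
    obtain ⟨u1, u1', d1, d2, d3, d4, d5, d6⟩ := ih _ hlt e1 e1' (e1 ≫ f ≫ e1') (e1' ≫ g ≫ e1)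
      rfl b1 c1 (by rw [← Category.assoc, b1]) (by simp only [Category.assoc, c1])
      (by rw [← Category.assoc, c1]) (by simp only [Category.assoc, b1]) hv1 hv2 hrk1
    have z1 : u1 ≫ k' = 0 := by rw [← d4, Category.assoc, c5, Limits.comp_zero]
    have z2 : k ≫ u1' = 0 := by rw [← d5, ← Category.assoc, c4, Limits.zero_comp]
    have z3 : u1' ≫ l' = 0 := by rw [← d6, Category.assoc, b5, Limits.comp_zero]
    have z4 : l ≫ u1 = 0 := by rw [← d3, ← Category.assoc, b4, Limits.zero_comp]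
    refine ⟨u1 + l' ≫ k, u1' + k' ≫ l, ?_, ?_, ?_, ?_, ?_, ?_⟩
    · rw [Preadditive.add_comp, Preadditive.comp_add, Preadditive.comp_add, d1,
        ← Category.assoc u1, z1, Limits.zero_comp, add_zero, Category.assoc l', z2,
        Limits.comp_zero, zero_add, Category.assoc l', ← Category.assoc k, hkk, hpl, he1]
      abel
    · rw [Preadditive.add_comp, Preadditive.comp_add, Preadditive.comp_add, d2,
        ← Category.assoc u1', z3, Limits.zero_comp, add_zero, Category.assoc k', z4,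
        Limits.comp_zero, zero_add, Category.assoc k', ← Category.assoc l, hll, hpk, he1']
      abel
    · rw [Preadditive.comp_add, ← Category.assoc e l', hel]
      congr 1
      rw [← d3, ← Category.assoc, b2]
    · rw [Preadditive.add_comp, Category.assoc, hke]
      congr 1
      rw [← d4, Category.assoc, c3]
    · rw [Preadditive.comp_add, ← Category.assoc e' k', hek]
      congr 1
      rw [← d5, ← Category.assoc, c2]
    · rw [Preadditive.add_comp, Category.assoc, hle]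
      congr 1
      rw [← d6, Category.assoc, b3]

end cat

theorem t_KS : S_KS.{u, v} := by
  intro 𝒞 _ _ _ fd nd S X Y f g hfg hgf hrk
  have hFH : ∀ (U Z : 𝒞) (p : U ⟶ U),
      Module.finrank ℚ (HH p (𝟙 Z)) = Module.finrank ℚ (FixC p Z) := by
    intro U Z p
    have : HH p (𝟙 Z) = FixC p Z := by
      ext h
      rw [mem_HH, mem_FixC]
      constructor
      · exact fun h => h.1
      · exact fun h' => ⟨h', Category.comp_id _⟩
    rw [this]
  obtain ⟨u, u', h1, h2, -⟩ := general fd (fun a ha => nd a ha) S X Y _ (𝟙 X) (𝟙 Y) f g rfl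
    (Category.comp_id _) (Category.comp_id _) (Category.id_comp _) (Category.comp_id _)
    (Category.id_comp _) (Category.comp_id _) hfg hgf
    (fun U hU p hp => by rw [hFH, hFH]; exact hrk U hU p hp)
  exact ⟨u, u', h1, h2⟩

end Pool.Agent.L0h59.OE
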