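import Pool.Agent.L0h14.OE.Stm

/-!
# Project OE, parts Pow and ND
-/

universe u v

open CategoryTheory

set_option autoImplicit false

namespace Pool.Agent.L0h59.OE

open Pool.Agent.L0h14.OE Pool.Agent.L0h14.ORN Pool.Agent.Y107 Pool.Agent.N174.OC

open Polynomial in
theorem t_Pow : S_Pow := by
  intro K _ _ m n A B N hAB
  classical
  set P : K[X] := A.charpoly * B.charpoly with hP
  have hP0 : P ≠ 0 := mul_ne_zero A.charpoly_monic.ne_zero B.charpoly_monic.ne_zero
  have hA : aeval A P = 0 := by rw [hP, map_mul, Matrix.aeval_self_charpoly, zero_mul]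
  have hB : aeval B P = 0 := by rw [hP, map_mul, Matrix.aeval_self_charpoly, mul_zero]
  obtain ⟨g, hg, hnd⟩ := exists_eq_pow_rootMultiplicity_mul_and_not_dvd P hP0 0
  set s := rootMultiplicity 0 P with hs
  rw [C_0, sub_zero] at hg hnd
  have hcop : IsCoprime (X ^ N : K[X]) g :=
    (IsCoprime.pow_left ((irreducible_X (R := K)).coprime_iff_not_dvd.2 hnd))
  obtain ⟨a, b, hab⟩ := hcop
  have key : ∀ (k : ℕ) (C : Matrix (Fin k) (Fin k) K), aeval C P = 0 →
      C.trace = (aeval C ((X * a) * X ^ N)).trace := by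
    intro k C hC
    have h1 : aeval C ((X * b * g) ^ (s + 1)) = 0 := by
      have : (X * b * g) ^ (s + 1) = P * (X * b ^ (s + 1) * g ^ s) := by
        rw [hg]; ring
      rw [this, map_mul, hC, zero_mul]
    have h2 : IsNilpotent (aeval C (X * b * g)) := ⟨s + 1, by rw [← map_pow, h1]⟩
    have h3 : (aeval C (X * b * g)).trace = 0 :=
      (Matrix.isNilpotent_trace_of_isNilpotent h2).eq_zero
    have h4 : C = aeval C ((X * a) * X ^ N) + aeval C (X * b * g) := by
      rw [← map_add]
      have : (X * a) * X ^ N + X * b * g = X := by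
        linear_combination (X : K[X]) * hab
      rw [this, aeval_X]
    conv_lhs => rw [h4]
    rw [Matrix.trace_add, h3, add_zero]
  rw [key m A hA, key n B hB]
  have hgen : ∀ q : K[X], (aeval A (q * X ^ N)).trace = (aeval B (q * X ^ N)).trace := by
    intro q
    induction q using Polynomial.induction_on' with
    | add p q hp hq =>
      rw [add_mul, map_add, map_add, Matrix.trace_add, Matrix.trace_add, hp, hq]
    | monomial j c =>
      have : (monomial j c : K[X]) * X ^ N = C c * X ^ (j + N) := by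
        rw [← C_mul_X_pow_eq_monomial, mul_assoc, ← pow_add]
      rw [this, map_mul, map_mul, aeval_C, aeval_C, map_pow, map_pow, aeval_X, aeval_X,
        ← Algebra.smul_def, ← Algebra.smul_def, Matrix.trace_smul, Matrix.trace_smul,
        hAB (j + N) (Nat.le_add_left _ _)]
  exact hgen _

section nd

variable {𝒱 : Type u} [Category.{v} 𝒱] [Preadditive 𝒱] [Linear ℚ 𝒱] (T : TraceTheory 𝒱)

theorem tr_of_pow_triv (X : 𝒱) (c : End X) (n : ℕ) (h : (show X ⟶ X from c ^ n) ∈ T.triv X X) :
    T.tr X c = 0 := by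
  obtain ⟨K, _, _, m, n', ρ, σ, hl⟩ := T.lefschetz X
  have h1 : ∀ k, n ≤ k → ((ρ c) ^ k).trace = ((σ c) ^ k).trace := by
    intro k hk
    have e : T.tr X (c ^ k) = 0 := by
      obtain ⟨j, rfl⟩ := Nat.exists_eq_add_of_le hk
      have : (c ^ (n + j) : End X) = (show X ⟶ X from c ^ n) ≫ (show X ⟶ X from c ^ j) := by
        rw [add_comm n j, pow_add]
        rfl
      rw [this]
      exact h _
    have e2 := hl (c ^ k)
    rw [e, map_pow, map_pow, Rat.cast_zero] at e2
    exact (sub_eq_zero.1 e2.symm)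
  have h2 := t_Pow K m n' (ρ c) (σ c) n h1
  have h3 := hl c
  rw [h2, sub_self] at h3
  exact_mod_cast h3

theorem pow_mem_gr (X : 𝒱) (i : ℤ) (c : End X) (hc : (show X ⟶ X from c) ∈ T.gr X X i) (k : ℕ) :
    (show X ⟶ X from c ^ k) ∈ T.gr X X (k * i) := by
  induction k with
  | zero =>
    rw [pow_zero, Nat.cast_zero, zero_mul]
    exact T.id_mem X
  | succ k ih =>
    have e : (c ^ (k + 1) : End X) = (show X ⟶ X from c) ≫ (show X ⟶ X from c ^ k) := by
      rw [pow_succ]
      rfl
    rw [e]
    have := T.comp_mem hc ih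
    have e2 : i + k * i = ((k + 1 : ℕ) : ℤ) * i := by push_cast; ring
    rw [e2] at this
    exact this

theorem tr_of_degree (X : 𝒱) (i : ℤ) (hi : i ≠ 0) (c : End X)
    (hc : (show X ⟶ X from c) ∈ T.gr X X i) : T.tr X c = 0 := by
  apply tr_of_pow_triv T X c (T.dim X + 1)
  have h1 := pow_mem_gr T X i c hc (T.dim X + 1)
  have h2 : (show X ⟶ X from c ^ (T.dim X + 1)) = 0 := by
    rcases lt_or_gt_of_ne hi with h | h
    · rw [T.negative X X _ (by push_cast; nlinarith [Int.natCast_nonneg (T.dim X)])] at h1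
      exact h1
    · rw [T.top X X _ (by push_cast; nlinarith [Int.natCast_nonneg (T.dim X)])] at h1
      exact h1
  rw [h2]
  exact Submodule.zero_mem _

end nd

theorem t_ND : S_ND.{u, v} := by
  intro 𝒱 _ _ _ T A B a ha
  obtain ⟨x, f, hf, rfl⟩ := a
  have hfn : f ∉ T.triv A.V B.V := by
    intro h
    apply ha
    apply Subtype.ext
    exact T.cl_eq_zero.2 h
  obtain ⟨b, hb⟩ : ∃ b : B.V ⟶ A.V, T.tr A.V (f ≫ b) ≠ 0 := by
    by_contra hcon
    push Not at hcon
    exact hfn hcon
  -- the component of the opposite degree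
  set d : ℤ := B.k - A.k with hd
  have hcomp : ∃ b' ∈ T.gr B.V A.V (-d), T.tr A.V (f ≫ b') ≠ 0 := by
    by_contra hcon
    push Not at hcon
    apply hb
    have hz : ∀ i : ℤ, ∀ y ∈ T.gr B.V A.V i, T.tr A.V (f ≫ y) = 0 := by
      intro i y hy
      by_cases hi : i = -d
      · subst hi
        exact hcon y hy
      · apply tr_of_degree T A.V (d + i) (by omega)
        exact T.comp_mem hf hy
    have htop : (⨆ i, T.gr B.V A.V i) = ⊤ := (T.isInternal B.V A.V).submodule_iSup_eq_top
    have hbm : b ∈ ⨆ i, T.gr B.V A.V i := by rw [htop]; exact Submodule.mem_top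
    induction hbm using Submodule.iSup_induction' with
    | mem i x hx => exact hz i x hx
    | zero => rw [Limits.comp_zero, map_zero]
    | add x y _ _ hx hy =>
      by_cases h1 : T.tr A.V (f ≫ x) = 0
      · by_cases h2 : T.tr A.V (f ≫ y) = 0
        · rw [Preadditive.comp_add, map_add, h1, h2, add_zero]
        · exact absurd (hy h2) h2
      · exact absurd (hx h1) h1
  obtain ⟨b', hb', hne⟩ := hcomp
  have hbm : T.cl b' ∈ T.gN B.V A.V (A.k - B.k) := ⟨b', by
    have : -d = A.k - B.k := by omega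
    rw [this] at hb'
    exact hb', rfl⟩
  refine ⟨⟨T.cl b', hbm⟩, ?_⟩
  rintro ⟨n, hn⟩
  apply hne
  apply tr_of_pow_triv T A.V (f ≫ b') n
  -- the powers
  have hpow : ∀ k : ℕ, ((show End A from (show A ⟶ B from ⟨T.cl f, f, hf, rfl⟩) ≫
      (show B ⟶ A from ⟨T.cl b', hbm⟩)) ^ k : End A).1 =
      T.cl (show A.V ⟶ A.V from ((show End A.V from f ≫ b') ^ k)) := by
    intro k
    induction k with
    | zero => rfl
    | succ k ih =>
      rw [pow_succ, pow_succ]
      change T.nc _ _ = _
      rw [ih]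
      rfl
  have h0 := hpow n
  rw [← T.cl_eq_zero, ← h0]
  have := congrArg Subtype.val hn
  exact this

end Pool.Agent.L0h59.OE
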